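import Pool.Agent.W146.VC.Stm

/-! VC-INS (owner helper146): inserting a point into a sorted list. -/

set_option autoImplicit false

namespace Pool.Agent.W216.VC

open Finset
open Pool.Agent.H526R2.Delta (hd hd_spec isDelta_hd)
open Pool.Agent.W146.VC

theorem hd_comm' (x y : ℕ) : hd x y = hd y x := by
  unfold hd
  simp only [max_comm x y, ne_comm (a := x / _) (b := y / _)]

/-- intervals -/
def II : Set (Set ℕ) := {C : Set ℕ | ∃ x, C = Set.Iio x}

/-- intersections -/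
def cap (F G : Set (Set ℕ)) : Set (Set ℕ) := {C | ∃ A ∈ F, ∃ B ∈ G, C = A ∩ B}

/-- unions -/
def cup (F G : Set (Set ℕ)) : Set (Set ℕ) := {C | ∃ A ∈ F, ∃ B ∈ G, C = A ∪ B}

/-- complements -/
def cpl (F : Set (Set ℕ)) : Set (Set ℕ) := {C | ∃ A ∈ F, C = Aᶜ}

/-- the pullback -/
def pb (x : ℕ) (B : Set ℕ) : Set ℕ := {z | z ≠ x ∧ hd x z ∈ B}

/-- pullbacks -/
def PB (F : Set (Set ℕ)) : Set (Set ℕ) :=
  {C : Set ℕ | ∃ x : ℕ, ∃ B ∈ F, C = {z | z ≠ x ∧ hd x z ∈ B}}

theorem mem_cap {F G : Set (Set ℕ)} {A B : Set ℕ} (h : A ∈ F) (h' : B ∈ G) : A ∩ B ∈ cap F G :=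
  ⟨A, h, B, h', rfl⟩

theorem mem_cup {F G : Set (Set ℕ)} {A B : Set ℕ} (h : A ∈ F) (h' : B ∈ G) : A ∪ B ∈ cup F G :=
  ⟨A, h, B, h', rfl⟩

theorem mem_cpl {F : Set (Set ℕ)} {A : Set ℕ} (h : A ∈ F) : Aᶜ ∈ cpl F := ⟨A, h, rfl⟩

theorem mem_II (x : ℕ) : Set.Iio x ∈ II := ⟨x, rfl⟩

theorem mem_PB {F : Set (Set ℕ)} {B : Set ℕ} (x : ℕ) (h : B ∈ F) : pb x B ∈ PB F :=
  ⟨x, B, h, rfl⟩

/-- the families of heights -/
def HF (X : Set (List ℕ × (List ℕ → Bool))) (i : ℕ) : Set (Set ℕ) :=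
  {H : Set ℕ | ∃ p ∈ X, H = {h | p.2 ((dl p.1).insertIdx i h) = true}}

/-- the families of points -/
def CF (X : Set (List ℕ × (List ℕ → Bool))) : Set (Set ℕ) :=
  {C : Set ℕ | ∃ p ∈ X, C = {z | z ∉ p.1 ∧ p.2 (dl (p.1.orderedInsert (· ≤ ·) z)) = true}}

theorem step_eq (G : List ℕ → Bool) (x y : ℕ) (l : List ℕ)
    (hl : (x :: y :: l).Pairwise (· < ·)) :
    {z | z ∉ x :: y :: l ∧ G (dl ((x :: y :: l).orderedInsert (· ≤ ·) z)) = true} =
    ((Set.Iio x ∩ pb x {h | G ((dl (x :: y :: l)).insertIdx 0 h) = true}) ∪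
      (((Set.Iio (x + 1))ᶜ ∩ Set.Iio y) ∩ (pb x (Set.Iio (hd x y)) ∩
        pb x {h | G ((dl (x :: y :: l)).insertIdx 0 h) = true}))) ∪
    ((((Set.Iio (x + 1))ᶜ ∩ Set.Iio y) ∩ ((pb x (Set.Iio (hd x y)))ᶜ ∩
        pb y {h | G ((dl (x :: y :: l)).insertIdx 1 h) = true})) ∪
      ((Set.Iio (y + 1))ᶜ ∩ {z | z ∉ y :: l ∧
        G (hd x y :: dl ((y :: l).orderedInsert (· ≤ ·) z)) = true})) := by
  have hxy : x < y := (List.pairwise_cons.1 hl).1 y (by simp)
  have hxl : ∀ a ∈ l, x < a := fun a ha => (List.pairwise_cons.1 hl).1 a (by simp [ha])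
  have hyl : ∀ a ∈ l, y < a := fun a ha =>
    (List.pairwise_cons.1 (List.pairwise_cons.1 hl).2).1 a ha
  have hdl : dl (x :: y :: l) = hd x y :: dl (y :: l) := rfl
  ext z
  simp only [Set.mem_union, Set.mem_inter_iff, Set.mem_compl_iff, Set.mem_Iio, pb,
    Set.mem_ofPred_eq]
  rcases lt_trichotomy z x with h | h | h
  · have h1 : z ∉ x :: y :: l := by
      rw [List.mem_cons, List.mem_cons]
      rintro (h1 | h1 | h1)
      · omega
      · omega
      · have := hxl z h1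
        omega
    have h2 : (x :: y :: l).orderedInsert (· ≤ ·) z = z :: x :: y :: l := by
      rw [List.orderedInsert, if_pos h.le]
    have h3 : dl (z :: x :: y :: l) = (dl (x :: y :: l)).insertIdx 0 (hd x z) := by
      rw [hd_comm' x z]
      rfl
    rw [h2, h3]
    constructor
    · rintro ⟨-, h4⟩
      exact Or.inl (Or.inl ⟨h, h.ne, h4⟩)
    · rintro ((⟨-, -, h4⟩ | ⟨⟨h4, -⟩, -⟩) | (⟨⟨h4, -⟩, -⟩ | ⟨h4, -⟩))
      · exact ⟨h1, h4⟩
      · omega
      · omega
      · omega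
  · subst h
    constructor
    · rintro ⟨h1, -⟩
      exact absurd (by simp) h1
    · rintro ((⟨h4, -⟩ | ⟨⟨h4, -⟩, -⟩) | (⟨⟨h4, -⟩, -⟩ | ⟨h4, -⟩)) <;> omega
  · rcases lt_trichotomy z y with h' | h' | h'
    · have h1 : z ∉ x :: y :: l := by
        rw [List.mem_cons, List.mem_cons]
        rintro (h1 | h1 | h1)
        · omega
        · omega
        · have := hyl z h1
          omega
      have h2 : (x :: y :: l).orderedInsert (· ≤ ·) z = x :: z :: y :: l := by
        rw [List.orderedInsert, if_neg (by omega), List.orderedInsert, if_pos h'.le]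
      obtain ⟨hne, hmax⟩ := isDelta_hd Set.univ x trivial z trivial y trivial h h'
      have h3 : dl (x :: z :: y :: l) = hd x z :: hd z y :: dl (y :: l) := rfl
      rw [h2, h3]
      by_cases hc : hd x z < hd x y
      · have h4 : hd z y = hd x y := by
          rcases le_total (hd x z) (hd z y) with h5 | h5
          · rw [hmax, max_eq_right h5]
          · rw [max_eq_left h5] at hmax
            omega
        rw [h4]
        constructor
        · rintro ⟨-, h5⟩
          exact Or.inl (Or.inr ⟨⟨by omega, h'⟩, ⟨by omega, hc⟩, by omega, h5⟩)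
        · rintro ((⟨h5, -⟩ | ⟨-, -, -, h5⟩) | (⟨-, h5, -⟩ | ⟨h5, -⟩))
          · omega
          · exact ⟨h1, h5⟩
          · exact absurd ⟨by omega, hc⟩ h5
          · omega
      · have h4 : hd x z = hd x y := by
          rcases le_total (hd x z) (hd z y) with h5 | h5
          · rw [max_eq_right h5] at hmax
            omega
          · rw [max_eq_left h5] at hmax
            exact hmax.symm
        have h6 : (dl (x :: y :: l)).insertIdx 1 (hd y z) = hd x y :: hd z y :: dl (y :: l) := by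
          rw [hd_comm' y z]
          rfl
        rw [h4, h6]
        constructor
        · rintro ⟨-, h5⟩
          exact Or.inr (Or.inl ⟨⟨by omega, h'⟩, fun h7 => by omega, by omega, h5⟩)
        · rintro ((⟨h5, -⟩ | ⟨-, ⟨-, h5⟩, -⟩) | (⟨-, -, -, h5⟩ | ⟨h5, -⟩))
          · omega
          · omega
          · exact ⟨h1, h5⟩
          · omega
    · subst h'
      constructor
      · rintro ⟨h1, -⟩
        exact absurd (by simp) h1
      · rintro ((⟨h4, -⟩ | ⟨⟨-, h4⟩, -⟩) | (⟨⟨-, h4⟩, -⟩ | ⟨h4, -⟩)) <;> omega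
    · have h2 : (x :: y :: l).orderedInsert (· ≤ ·) z =
          x :: y :: l.orderedInsert (· ≤ ·) z := by
        rw [List.orderedInsert, if_neg (by omega), List.orderedInsert, if_neg (by omega)]
      have h3 : (y :: l).orderedInsert (· ≤ ·) z = y :: l.orderedInsert (· ≤ ·) z := by
        rw [List.orderedInsert, if_neg (by omega)]
      have h4 : dl (x :: y :: l.orderedInsert (· ≤ ·) z) =
          hd x y :: dl (y :: l.orderedInsert (· ≤ ·) z) := rfl
      rw [h2, h3, h4]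
      have h5 : z ∉ x :: y :: l ↔ z ∉ y :: l := by
        rw [List.mem_cons (a := z) (b := x)]
        constructor
        · intro h6 h7
          exact h6 (Or.inr h7)
        · rintro h6 (h7 | h7)
          · omega
          · exact h6 h7
      rw [h5]
      constructor
      · rintro ⟨h6, h7⟩
        exact Or.inr (Or.inr ⟨by omega, h6, h7⟩)
      · rintro ((⟨h5, -⟩ | ⟨⟨-, h5⟩, -⟩) | (⟨⟨-, h5⟩, -⟩ | ⟨-, h5⟩))
        · omega
        · omega
        · omega
        · exact h5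

theorem t_INS : S_INS := by
  intro hb hp m D
  obtain ⟨hI, hU, hC, hFU, hM, hIio, hS, -⟩ := hb
  have hI' : ∀ (F G : Set (Set ℕ)) (D D' : ℕ), Tr F D → Tr G D' → Tr (cap F G) (D + D') :=
    fun F G D D' h h' => hI ℕ F G D D' h h'
  have hU' : ∀ (F G : Set (Set ℕ)) (D D' : ℕ), Tr F D → Tr G D' → Tr (cup F G) (D + D') :=
    fun F G D D' h h' => hU ℕ F G D D' h h'
  have hC' : ∀ (F : Set (Set ℕ)) (D : ℕ), Tr F D → Tr (cpl F) D := fun F D h => hC ℕ F D h
  have hII : Tr II 1 := hIio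
  have hIC : Tr (cpl II) 1 := hC' II 1 hII
  have hPB : ∀ (F : Set (Set ℕ)) (D : ℕ), Tr F D → Tr (PB F) (D + 4) := hp
  have hPI := hPB II 1 hII
  induction m with
  | zero =>
    refine ⟨1, ?_⟩
    intro X hX _
    refine hM ℕ _ ({∅} ∪ {Set.univ}) (0 + 0 + 1) 1 ?_ le_rfl
      (hFU ℕ _ _ 0 0 (hS ℕ ∅) (hS ℕ Set.univ))
    rintro C ⟨p, hp, rfl⟩
    have h1 := List.length_eq_zero_iff.1 (hX p hp).2
    rw [h1]
    have h2 : ∀ z : ℕ, dl (([] : List ℕ).orderedInsert (· ≤ ·) z) = [] := fun z => rfl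
    simp only [h2]
    by_cases h3 : p.2 [] = true
    · right
      simp [h3]
    · left
      simp [h3]
  | succ m ih =>
    cases m with
    | zero =>
      refine ⟨D + 4, ?_⟩
      intro X hX hH
      refine hM ℕ _ (PB (HF X 0)) (D + 4) (D + 4) ?_ le_rfl (hPB _ _ (hH 0 (by omega)))
      rintro C ⟨p, hp, rfl⟩
      obtain ⟨x, hx⟩ := List.length_eq_one_iff.1 (hX p hp).2
      refine ⟨x, _, ⟨p, hp, rfl⟩, ?_⟩
      rw [hx]
      ext z
      have h1 : dl ([x].orderedInsert (· ≤ ·) z) = [hd x z] := by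
        rw [List.orderedInsert]
        split_ifs
        · rw [hd_comm']
          rfl
        · rfl
      rw [Set.mem_ofPred_eq, h1]
      simp only [List.mem_singleton, Set.mem_ofPred_eq]
      rfl
    | succ m =>
      obtain ⟨D1, hD1⟩ := ih
      refine ⟨(1 + (D + 4) + ((1 + 1) + (5 + (D + 4)))) +
        (((1 + 1) + (5 + (D + 4))) + (1 + D1)), ?_⟩
      intro X hX hH
      have hH0 := hPB (HF X 0) D (hH 0 (by omega))
      have hH1 := hPB (HF X 1) D (hH 1 (by omega))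
      let X' : Set (List ℕ × (List ℕ → Bool)) := {q | ∃ p ∈ X, ∃ (x y : ℕ) (l : List ℕ),
        p.1 = x :: y :: l ∧ q = (y :: l, fun w => p.2 (hd x y :: w))}
      have hX' : Tr (CF X') D1 := by
        apply hD1 X'
        · rintro q ⟨p, hp, x, y, l, h1, rfl⟩
          obtain ⟨h2, h3⟩ := hX p hp
          rw [h1] at h2 h3
          refine ⟨(List.pairwise_cons.1 h2).2, ?_⟩
          simpa using h3
        · intro i hi
          refine hM ℕ _ _ D D ?_ le_rfl (hH (i + 1) (by omega))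
          rintro H ⟨q, ⟨p, hp, x, y, l, h1, rfl⟩, rfl⟩
          refine ⟨p, hp, ?_⟩
          rw [h1]
          rfl
      have key := hU' _ _ _ _ (hU' _ _ _ _ (hI' II (PB (HF X 0)) 1 (D + 4) hII hH0)
        (hI' _ _ _ _ (hI' (cpl II) II 1 1 hIC hII) (hI' (PB II) (PB (HF X 0)) 5 (D + 4) hPI hH0)))
        (hU' _ _ _ _ (hI' _ _ _ _ (hI' (cpl II) II 1 1 hIC hII)
          (hI' (cpl (PB II)) (PB (HF X 1)) 5 (D + 4) (hC' _ _ hPI) hH1))
          (hI' (cpl II) (CF X') 1 D1 hIC hX'))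
      refine hM ℕ _ _ _ _ ?_ le_rfl key
      rintro C ⟨p, hp, rfl⟩
      obtain ⟨h1, h2⟩ := hX p hp
      obtain ⟨x, y, l, hl⟩ : ∃ (x y : ℕ) (l : List ℕ), p.1 = x :: y :: l := by
        rcases h3 : p.1 with _ | ⟨x, _ | ⟨y, l⟩⟩
        · rw [h3] at h2
          simp at h2
        · rw [h3] at h2
          simp at h2
        · exact ⟨x, y, l, rfl⟩
      have hm0 : {h | p.2 ((dl (x :: y :: l)).insertIdx 0 h) = true} ∈ HF X 0 :=
        ⟨p, hp, by rw [hl]⟩
      have hm1 : {h | p.2 ((dl (x :: y :: l)).insertIdx 1 h) = true} ∈ HF X 1 :=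
        ⟨p, hp, by rw [hl]⟩
      have hm2 : {z | z ∉ y :: l ∧
          p.2 (hd x y :: dl ((y :: l).orderedInsert (· ≤ ·) z)) = true} ∈ CF X' :=
        ⟨(y :: l, fun w => p.2 (hd x y :: w)), ⟨p, hp, x, y, l, hl, rfl⟩, rfl⟩
      rw [hl] at h1 ⊢
      rw [step_eq p.2 x y l h1]
      exact mem_cup (mem_cup (mem_cap (mem_II _) (mem_PB _ hm0))
        (mem_cap (mem_cap (mem_cpl (mem_II _)) (mem_II _))
          (mem_cap (mem_PB _ (mem_II _)) (mem_PB _ hm0))))
        (mem_cup (mem_cap (mem_cap (mem_cpl (mem_II _)) (mem_II _))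
          (mem_cap (mem_cpl (mem_PB _ (mem_II _))) (mem_PB _ hm1)))
          (mem_cap (mem_cpl (mem_II _)) hm2))

end Pool.Agent.W216.VC
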