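import Pool.Agent.W146.VC.Stm

/-! VC-PULL (owner helper146): traces of pullbacks. -/

set_option autoImplicit false

namespace Pool.Agent.W216.VC

open Finset
open Pool.Agent.H526R2.Delta (hd hd_spec)
open Pool.Agent.W146.VC

theorem hd_comm (x y : ℕ) : hd x y = hd y x := by
  unfold hd
  simp only [max_comm x y, ne_comm (a := x / _) (b := y / _)]

theorem hd_self (x : ℕ) : hd x x = 0 := by
  unfold hd
  rw [Nat.findGreatest_eq_zero_iff]
  intro n _ _ h
  exact h rfl

theorem hd_spec' {x y : ℕ} (h : x ≠ y) (i : ℕ) : i ≤ hd x y ↔ x / 2 ^ i ≠ y / 2 ^ i := by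
  rcases lt_or_gt_of_ne h with h | h
  · exact hd_spec h i
  · rw [hd_comm, hd_spec h i, ne_comm]

theorem hd_max {x z0 z : ℕ} (h0 : z0 ≠ x) (hz : z ≠ x) (h : hd x z0 ≤ hd x z) :
    hd x z = max (hd x z0) (hd z0 z) := by
  by_cases hzz : z0 = z
  · subst hzz
    rw [hd_self]
    simp
  · apply le_antisymm
    · have h1 := (hd_spec' (Ne.symm hz) (hd x z)).1 le_rfl
      by_contra hcon
      rw [not_le, max_lt_iff] at hcon
      have h2 : x / 2 ^ (hd x z) = z0 / 2 ^ (hd x z) := by
        by_contra h3
        have := (hd_spec' (Ne.symm h0) _).2 h3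
        omega
      have h3 : z0 / 2 ^ (hd x z) = z / 2 ^ (hd x z) := by
        by_contra h3
        have := (hd_spec' hzz _).2 h3
        omega
      exact h1 (h2.trans h3)
    · apply max_le h
      by_contra hcon
      rw [not_le] at hcon
      have h1 := (hd_spec' hzz (hd z0 z)).1 le_rfl
      have h2 : x / 2 ^ (hd z0 z) = z / 2 ^ (hd z0 z) := by
        by_contra h3
        have := (hd_spec' (Ne.symm hz) _).2 h3
        omega
      have h3 : x / 2 ^ (hd z0 z) = z0 / 2 ^ (hd z0 z) := by
        by_contra h3
        have := (hd_spec' (Ne.symm h0) _).2 h3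
        omega
      exact h1 (h3.symm.trans h2)

theorem t_PULL : S_PULL := by
  classical
  intro F D hF P
  choose T hT1 hT2 using hF
  let f : ℕ → ℕ → Option ℕ → Bool → Finset ℕ → Finset ℕ := fun z0 w o b t =>
    P.filter (fun z => some z ≠ o ∧ (if hd z0 z ≤ hd z0 w then b = true else hd z0 z ∈ t))
  refine ⟨insert ∅ (P.biUnion fun z0 => P.biUnion fun w => (insertNone P).biUnion fun o =>
    (univ : Finset Bool).biUnion fun b => (T (P.image (hd z0))).image (f z0 w o b)), ?_, ?_⟩
  · refine (card_insert_le _ _).trans ?_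
    have h1 : (P.biUnion fun z0 => P.biUnion fun w => (insertNone P).biUnion fun o =>
        (univ : Finset Bool).biUnion fun b => (T (P.image (hd z0))).image (f z0 w o b)).card ≤
        P.card * (P.card * ((P.card + 1) * (2 * (P.card + 2) ^ D))) := by
      refine card_biUnion_le_card_mul _ _ _ fun z0 _ => ?_
      refine card_biUnion_le_card_mul _ _ _ fun w _ => ?_
      rw [← card_insertNone P]
      refine card_biUnion_le_card_mul _ _ _ fun o _ => ?_
      have h2 : (2 : ℕ) = (univ : Finset Bool).card := by simp
      rw [h2]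
      refine card_biUnion_le_card_mul _ _ _ fun b _ => ?_
      rw [← h2]
      refine card_image_le.trans ((hT1 _).trans ?_)
      exact Nat.pow_le_pow_left (Nat.add_le_add_right card_image_le 2) D
    have h2 : 1 ≤ (P.card + 2) ^ D := Nat.one_le_pow _ _ (by omega)
    set k := P.card
    calc _ ≤ k * (k * ((k + 1) * (2 * (k + 2) ^ D))) + 1 := Nat.add_le_add_right h1 1
      _ ≤ k * (k * ((k + 1) * (2 * (k + 2) ^ D))) + (k + 2) ^ D := Nat.add_le_add_left h2 _
      _ = (k * (k * ((k + 1) * 2)) + 1) * (k + 2) ^ D := by ring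
      _ ≤ (k + 2) ^ 4 * (k + 2) ^ D := by
        apply Nat.mul_le_mul_right
        nlinarith [Nat.zero_le (k ^ 4), Nat.zero_le (k ^ 3), Nat.zero_le (k ^ 2)]
      _ = _ := by rw [pow_add, mul_comm]
  · rintro A ⟨x, B, hB, rfl⟩
    by_cases hne : (P.erase x).Nonempty
    · obtain ⟨z0, hz0, hmin⟩ := (P.erase x).exists_min_image (fun z => hd x z) hne
      rw [mem_erase] at hz0
      have hne2 : (P.filter (fun z => hd z0 z ≤ hd x z0)).Nonempty :=
        ⟨z0, by rw [mem_filter, hd_self]; exact ⟨hz0.2, Nat.zero_le _⟩⟩
      obtain ⟨w, hw, hmax⟩ := (P.filter (fun z => hd z0 z ≤ hd x z0)).exists_max_image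
        (fun z => hd z0 z) hne2
      rw [mem_filter] at hw
      obtain ⟨t, ht, htB⟩ := hT2 (P.image (hd z0)) B hB
      refine ⟨f z0 w (if x ∈ P then some x else none) (decide (hd x z0 ∈ B)) t, ?_, ?_⟩
      · rw [mem_insert]
        right
        simp only [mem_biUnion, mem_image]
        refine ⟨z0, hz0.2, w, hw.1, _, ?_, _, mem_univ _, t, ht, rfl⟩
        split_ifs with hx
        · exact some_mem_insertNone.2 hx
        · exact none_mem_insertNone
      · intro z hz
        simp only [f, mem_filter]
        have e1 : (some z ≠ (if x ∈ P then some x else none)) ↔ z ≠ x := by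
          split_ifs with hx
          · simp
          · simp only [ne_eq, reduceCtorEq, not_false_eq_true, true_iff]
            rintro rfl
            exact hx hz
        rw [e1]
        simp only [hz, true_and, Set.mem_ofPred_eq, decide_eq_true_eq]
        constructor
        · rintro ⟨h1, h2⟩
          refine ⟨h1, ?_⟩
          have h3 := hd_max hz0.1 h1 (hmin z (mem_erase.2 ⟨h1, hz⟩))
          split_ifs at h2 with h4
          · rw [h3, max_eq_left (h4.trans hw.2)]
            exact h2
          · have h5 : hd x z0 < hd z0 z := by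
              by_contra h6
              exact h4 (hmax z (mem_filter.2 ⟨hz, not_lt.1 h6⟩))
            rw [h3, max_eq_right h5.le]
            exact (htB _ (mem_image_of_mem _ hz)).1 h2
        · rintro ⟨h1, h2⟩
          refine ⟨h1, ?_⟩
          have h3 := hd_max hz0.1 h1 (hmin z (mem_erase.2 ⟨h1, hz⟩))
          split_ifs with h4
          · rw [h3, max_eq_left (h4.trans hw.2)] at h2
            exact h2
          · have h5 : hd x z0 < hd z0 z := by
              by_contra h6
              exact h4 (hmax z (mem_filter.2 ⟨hz, not_lt.1 h6⟩))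
            rw [h3, max_eq_right h5.le] at h2
            exact (htB _ (mem_image_of_mem _ hz)).2 h2
    · refine ⟨∅, mem_insert_self _ _, ?_⟩
      intro z hz
      rw [not_nonempty_iff_eq_empty] at hne
      have hzx : z = x := by
        by_contra h1
        have : z ∈ P.erase x := mem_erase.2 ⟨h1, hz⟩
        rw [hne] at this
        exact absurd this (notMem_empty z)
      simp [hzx]

end Pool.Agent.W216.VC
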