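import Pool.Agent.W216.VC_INS

/-! VC-TR (owner helper146): traces of the stepped up colouring. -/

set_option autoImplicit false

namespace Pool.Agent.W216.VC

open Finset
open Pool.Agent.H526R2.Delta (hd hd_spec isDelta_hd)
open Pool.Agent.W146.VC

theorem dl_length (l : List ℕ) : (dl l).length = l.length - 1 := by
  induction l with
  | nil => rfl
  | cons x l ih =>
    cases l with
    | nil => rfl
    | cons y l =>
      change (hd x y :: dl (y :: l)).length = _
      rw [List.length_cons, ih]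
      simp

theorem mem_of_eq {F : Set (Set ℕ)} {A B : Set ℕ} (hB : B ∈ F) (h : A = B) : A ∈ F := h ▸ hB

/-- intervals and complements -/
def UI : Set (Set ℕ) := II ∪ cpl II

theorem univ_mem_cpl : (Set.univ : Set ℕ) ∈ cpl II :=
  ⟨Set.Iio 0, ⟨0, rfl⟩, by ext h; simp⟩

theorem empty_mem_II : (∅ : Set ℕ) ∈ II := ⟨0, by ext h; simp⟩

theorem mem_Ioi (w : List ℕ) : {h : ℕ | ∀ a ∈ w, a < h} ∈ cpl II := by
  induction w with
  | nil =>
    refine ⟨Set.Iio 0, ⟨0, rfl⟩, ?_⟩
    ext h
    simp
  | cons b w ih =>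
    obtain ⟨_, ⟨k, rfl⟩, h1⟩ := ih
    refine ⟨Set.Iio (max (b + 1) k), ⟨_, rfl⟩, ?_⟩
    ext h
    have h2 : (∀ a ∈ w, a < h) ↔ k ≤ h := by
      have := Set.ext_iff.1 h1 h
      simpa using this
    simp only [List.mem_cons, forall_eq_or_imp, Set.mem_ofPred_eq, Set.mem_compl_iff,
      Set.mem_Iio, h2]
    omega

theorem mem_Iio_aux (w : List ℕ) : w = [] ∨ ∃ k, {h : ℕ | ∀ a ∈ w, h < a} = Set.Iio k := by
  induction w with
  | nil => exact Or.inl rfl
  | cons b w ih =>
    right
    rcases ih with rfl | ⟨k, h1⟩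
    · refine ⟨b, ?_⟩
      ext h
      simp
    · refine ⟨min b k, ?_⟩
      ext h
      have h2 : (∀ a ∈ w, h < a) ↔ h < k := by
        have := Set.ext_iff.1 h1 h
        simpa using this
      simp only [List.mem_cons, forall_eq_or_imp, Set.mem_ofPred_eq, Set.mem_Iio, h2]
      omega

theorem mem_Iio (w : List ℕ) : {h : ℕ | ∀ a ∈ w, h < a} ∈ UI := by
  rcases mem_Iio_aux w with rfl | ⟨k, h1⟩
  · right
    refine mem_of_eq univ_mem_cpl ?_
    ext h
    simp
  · left
    exact ⟨k, h1⟩

theorem insertIdx_eq (d : List ℕ) (i h : ℕ) (hi : i ≤ d.length) :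
    d.insertIdx i h = d.take i ++ h :: d.drop i := by
  induction d generalizing i with
  | nil =>
    have : i = 0 := by simpa using hi
    subst this
    rfl
  | cons b d ih =>
    cases i with
    | zero => rfl
    | succ i =>
      rw [List.insertIdx_succ_cons, ih i (by simpa using hi)]
      rfl

theorem pairwise_insert {R : ℕ → ℕ → Prop} (d : List ℕ) (i h : ℕ) (hi : i ≤ d.length) :
    (d.insertIdx i h).Pairwise R ↔
      d.Pairwise R ∧ (∀ b ∈ d.take i, R b h) ∧ ∀ b ∈ d.drop i, R h b := by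
  have hd : d.Pairwise R ↔ (d.take i ++ d.drop i).Pairwise R := by rw [List.take_append_drop]
  rw [insertIdx_eq d i h hi, hd, List.pairwise_append, List.pairwise_append, List.pairwise_cons]
  simp only [List.mem_cons, forall_eq_or_imp]
  constructor
  · rintro ⟨h1, ⟨h2, h3⟩, h4⟩
    exact ⟨⟨h1, h3, fun a ha b hb => (h4 a ha).2 b hb⟩, fun b hb => (h4 b hb).1, h2⟩
  · rintro ⟨⟨h1, h3, h4⟩, h5, h2⟩
    exact ⟨h1, ⟨h2, h3⟩, fun a ha => ⟨h5 a ha, fun b hb => h4 a ha b hb⟩⟩

theorem mem_inc (d : List ℕ) (i : ℕ) (hi : i ≤ d.length) :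
    {h | (d.insertIdx i h).Pairwise (· < ·)} ∈ cap (cpl II) UI := by
  by_cases hd : d.Pairwise (· < ·)
  · refine mem_of_eq (mem_cap (mem_Ioi (d.take i)) (mem_Iio (d.drop i))) ?_
    ext h
    rw [Set.mem_ofPred_eq, pairwise_insert d i h hi]
    simp only [hd, true_and]
    rfl
  · refine mem_of_eq (mem_cap univ_mem_cpl (show (∅ : Set ℕ) ∈ UI from Or.inl empty_mem_II)) ?_
    ext h
    rw [Set.mem_ofPred_eq, pairwise_insert d i h hi]
    simp [hd]

theorem mem_dec (d : List ℕ) (i : ℕ) (hi : i ≤ d.length) :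
    {h | (d.insertIdx i h).Pairwise (· > ·)} ∈ cap (cpl II) UI := by
  by_cases hd : d.Pairwise (· > ·)
  · refine mem_of_eq (mem_cap (mem_Ioi (d.drop i)) (mem_Iio (d.take i))) ?_
    ext h
    rw [Set.mem_ofPred_eq, pairwise_insert d i h hi]
    simp only [hd, true_and]
    exact and_comm
  · refine mem_of_eq (mem_cap univ_mem_cpl (show (∅ : Set ℕ) ∈ UI from Or.inl empty_mem_II)) ?_
    ext h
    rw [Set.mem_ofPred_eq, pairwise_insert d i h hi]
    simp [hd]

/-- the list starts with an ascent -/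
def asc (l : List ℕ) : Bool :=
  match l with
    | a :: b :: _ => decide (a < b)
    | _ => false

theorem dcol_eq (χ : Finset ℕ → Bool) (l : List ℕ) : dcol χ l =
    if l.Pairwise (· < ·) ∨ l.Pairwise (· > ·) then χ l.toFinset else asc l := by
  rcases l with _ | ⟨a, _ | ⟨b, l⟩⟩ <;> rfl

theorem mem_asc (d : List ℕ) (i : ℕ) (hi : i ≤ d.length) (hd : 2 ≤ d.length) :
    {h | asc (d.insertIdx i h) = true} ∈ UI := by
  rcases d with _ | ⟨a, _ | ⟨b, d⟩⟩
  · simp at hd
  · simp at hd
  · rcases i with _ | _ | i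
    · left
      refine ⟨a, ?_⟩
      ext h
      change decide (h < a) = true ↔ h < a
      simp
    · right
      refine ⟨Set.Iio (a + 1), ⟨_, rfl⟩, ?_⟩
      ext h
      change decide (a < h) = true ↔ ¬ h < a + 1
      rw [decide_eq_true_eq]
      omega
    · by_cases hab : a < b
      · right
        refine mem_of_eq univ_mem_cpl ?_
        ext h
        change decide (a < b) = true ↔ True
        simp [hab]
      · left
        refine mem_of_eq empty_mem_II ?_
        ext h
        change decide (a < b) = true ↔ False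
        simp [hab]

theorem sort_insert_eq (e : Finset ℕ) (z : ℕ) (hz : z ∉ e) :
    (insert z e).sort (· ≤ ·) = (e.sort (· ≤ ·)).orderedInsert (· ≤ ·) z := by
  refine List.Perm.eq_of_pairwise' (r := (· ≤ ·)) (pairwise_sort _ _)
    (List.Pairwise.orderedInsert _ _ (pairwise_sort _ _)) ?_
  refine (sort_perm_toList _ _).trans ((toList_insert hz).trans ?_)
  exact ((sort_perm_toList e (· ≤ ·)).symm.cons z).trans (List.perm_orderedInsert _ _ _).symm

theorem t_TR : S_TR := by
  intro hb hins hp r D hr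
  obtain ⟨hI, hU, hC, hFU, hM, hIio, hS, -⟩ := id hb
  have hI' : ∀ (F G : Set (Set ℕ)) (D D' : ℕ), Tr F D → Tr G D' → Tr (cap F G) (D + D') :=
    fun F G D D' h h' => hI ℕ F G D D' h h'
  have hU' : ∀ (F G : Set (Set ℕ)) (D D' : ℕ), Tr F D → Tr G D' → Tr (cup F G) (D + D') :=
    fun F G D D' h h' => hU ℕ F G D D' h h'
  have hC' : ∀ (F : Set (Set ℕ)) (D : ℕ), Tr F D → Tr (cpl F) D := fun F D h => hC ℕ F D h
  have hII : Tr II 1 := hIio
  have hIC : Tr (cpl II) 1 := hC' II 1 hII
  have hUI : Tr UI (1 + 1 + 1) := hFU ℕ _ _ 1 1 hII hIC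
  have hJ := hI' _ _ _ _ hIC hUI
  have hM' := hU' _ _ _ _ hJ hJ
  obtain ⟨D', hD'⟩ := hins hb hp r ((1 + (1 + 1 + 1) + (1 + (1 + 1 + 1)) + D) +
    (1 + (1 + 1 + 1) + (1 + (1 + 1 + 1)) + (1 + 1 + 1)))
  refine ⟨D', ?_⟩
  intro χ hχ
  let X : Set (List ℕ × (List ℕ → Bool)) :=
    {q | ∃ e : Finset ℕ, e.card = r ∧ q = (e.sort (· ≤ ·), dcol χ)}
  have key := hD' X ?_ ?_
  · refine hM ℕ _ _ _ _ ?_ le_rfl key
    rintro A ⟨e, he, rfl⟩
    refine ⟨(e.sort (· ≤ ·), dcol χ), ⟨e, by omega, rfl⟩, ?_⟩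
    ext z
    simp only [Set.mem_ofPred_eq, mem_sort]
    constructor
    · rintro ⟨h1, h2⟩
      refine ⟨h1, ?_⟩
      rw [← sort_insert_eq e z h1]
      exact h2
    · rintro ⟨h1, h2⟩
      refine ⟨h1, ?_⟩
      rw [← sort_insert_eq e z h1] at h2
      exact h2
  · rintro q ⟨e, he, rfl⟩
    exact ⟨(sortedLT_sort e).pairwise, by rw [length_sort]; exact he⟩
  · intro i hi
    refine hM ℕ _ _ _ _ ?_ le_rfl (hU' _ _ _ _ (hI' _ _ _ _ hM' hχ)
      (hI' _ _ _ _ (hC' _ _ hM') hUI))
    rintro H ⟨q, ⟨e, he, rfl⟩, rfl⟩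
    obtain ⟨d, hd⟩ : ∃ d, d = dl (e.sort (· ≤ ·)) := ⟨_, rfl⟩
    have hdlen : d.length = r - 1 := by rw [hd, dl_length, length_sort, he]
    simp only
    rw [← hd]
    have hid : i ≤ d.length := by omega
    set M : Set ℕ := {h | (d.insertIdx i h).Pairwise (· < ·)} ∪
      {h | (d.insertIdx i h).Pairwise (· > ·)} with hMdef
    have hMm : M ∈ cup (cap (cpl II) UI) (cap (cpl II) UI) :=
      mem_cup (mem_inc d i hid) (mem_dec d i hid)
    obtain ⟨Nn, hN1, hN2⟩ : ∃ Nn ∈ Nb r χ, ∀ h ∈ M,
        (h ∈ Nn ↔ χ (d.insertIdx i h).toFinset = true) := by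
      by_cases hnd : d.Nodup
      · refine ⟨_, ⟨d.toFinset, ?_, rfl⟩, ?_⟩
        · rw [List.toFinset_card_of_nodup hnd, hdlen]
          omega
        · intro h hh
          have h1 : (d.insertIdx i h).Nodup := by
            rcases hh with hh | hh
            · exact hh.imp fun h => h.ne
            · exact hh.imp fun h => ne_of_gt h
          have h2 : h ∉ d := by
            rw [insertIdx_eq d i h hid, List.nodup_middle, List.nodup_cons,
              List.take_append_drop] at h1
            exact h1.1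
          have h3 : (d.insertIdx i h).toFinset = insert h d.toFinset := by
            ext a
            rw [insertIdx_eq d i h hid]
            conv_rhs => rw [← List.take_append_drop i d]
            simp only [List.mem_toFinset, List.mem_append, List.mem_cons, mem_insert]
            tauto
          rw [h3, Set.mem_ofPred_eq, List.mem_toFinset]
          simp [h2]
      · refine ⟨_, ⟨range (r - 1), by rw [card_range]; omega, rfl⟩, ?_⟩
        intro h hh
        exfalso
        apply hnd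
        rcases hh with hh | hh
        · exact ((pairwise_insert d i h hid).1 hh).1.imp fun h => h.ne
        · exact ((pairwise_insert d i h hid).1 hh).1.imp fun h => ne_of_gt h
    have hA := mem_asc d i hid (by omega)
    refine mem_of_eq (mem_cup (mem_cap hMm hN1) (mem_cap (mem_cpl hMm) hA)) ?_
    ext h
    rw [Set.mem_ofPred_eq, dcol_eq]
    simp only [Set.mem_union, Set.mem_inter_iff, Set.mem_compl_iff]
    by_cases hh : h ∈ M
    · have hh' : (d.insertIdx i h).Pairwise (· < ·) ∨ (d.insertIdx i h).Pairwise (· > ·) := hh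
      rw [if_pos hh']
      simp only [hh, true_and, not_true_eq_false, false_and, or_false]
      exact (hN2 h hh).symm
    · have hh' : ¬ ((d.insertIdx i h).Pairwise (· < ·) ∨ (d.insertIdx i h).Pairwise (· > ·)) := hh
      rw [if_neg hh']
      simp only [hh, false_and, not_false_eq_true, true_and, false_or]
      rfl

end Pool.Agent.W216.VC
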