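import Pool.Agent.W997.CF.Stm

/-!
# The machine evaluates the tree
-/

set_option autoImplicit false

namespace Pool.Agent.W216.CFPDA

open Pool.Agent.W997.TS (DBP Var Input value rootValue bit)
open Pool.Agent.H561R2.CF (RDPDA)
open Pool.Agent.W997.CF

theorem run_append {Q Γ A : Type} (M : RDPDA Q Γ A) (u w : List A) :
    ∀ c : Q × List Γ, M.run c (u ++ w) = (M.run c u).bind (fun c' => M.run c' w) := by
  induction u with
  | nil => intro c; rfl
  | cons a u ih =>
    intro c
    show (M.next c a).bind (fun c' => M.run c' (u ++ w)) =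
      ((M.next c a).bind (fun c' => M.run c' u)).bind (fun c' => M.run c' w)
    cases M.next c a with
    | none => rfl
    | some c' => exact ih c'

theorem run_cons {Q Γ A : Type} (M : RDPDA Q Γ A) (a : A) (w : List A) (c c' : Q × List Γ)
    (h : M.next c a = some c') : M.run c (a :: w) = M.run c' w := by
  show (M.next c a).bind (fun c' => M.run c' w) = M.run c' w
  rw [h]; rfl

theorem run_app {Q Γ A : Type} (M : RDPDA Q Γ A) (u w : List A) (c c' : Q × List Γ)
    (h : M.run c u = some c') : M.run c (u ++ w) = M.run c' w := by
  rw [run_append, h]; rfl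

/-- Digits. -/
def dl (b : Bool) : Fin 6 := if b then 1 else 0

theorem next_run_dl (σ : List Sy) (b : Bool) :
    mach.next (St.run, σ) (dl b) = some (St.run, Sy.bit b :: σ) := by
  rcases b with _ | _ <;> rcases σ with _ | ⟨(_ | _) | _, σ⟩ <;> rfl

theorem next_bar_dl (σ : List Sy) (b : Bool) :
    mach.next (St.toBar, σ) (dl b) = some (St.toBar, σ) := by
  rcases b with _ | _ <;> rcases σ with _ | ⟨(_ | _) | _, σ⟩ <;> rfl

theorem next_cls_dl (σ : List Sy) (b : Bool) :
    mach.next (St.toCls, σ) (dl b) = some (St.toCls, σ) := by
  rcases b with _ | _ <;> rcases σ with _ | ⟨(_ | _) | _, σ⟩ <;> rfl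

theorem run_dl (l : List Bool) : ∀ s : List Bool,
    mach.run (St.run, s.map Sy.bit) (l.map dl) = some (St.run, (l.reverse ++ s).map Sy.bit) := by
  induction l with
  | nil => intro s; rfl
  | cons b l ih =>
    intro s
    rw [List.map_cons, run_cons _ _ _ _ _ (next_run_dl _ b)]
    have := ih (b :: s)
    rw [List.map_cons] at this
    rw [this]
    simp

theorem bar_dl (l : List Bool) (σ : List Sy) :
    mach.run (St.toBar, σ) (l.map dl) = some (St.toBar, σ) := by
  induction l with
  | nil => rfl
  | cons b l ih => rw [List.map_cons, run_cons _ _ _ _ _ (next_bar_dl _ b), ih]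

theorem cls_dl (l : List Bool) (σ : List Sy) :
    mach.run (St.toCls, σ) (l.map dl) = some (St.toCls, σ) := by
  induction l with
  | nil => rfl
  | cons b l ih => rw [List.map_cons, run_cons _ _ _ _ _ (next_cls_dl _ b), ih]

theorem next_bar_open (σ : List Sy) :
    mach.next (St.toBar, σ) 2 = some (St.toBar, Sy.mark :: σ) := by
  rcases σ with _ | ⟨(_ | _) | _, σ⟩ <;> rfl

theorem next_cls_open (σ : List Sy) :
    mach.next (St.toCls, σ) 2 = some (St.toCls, Sy.mark :: σ) := by
  rcases σ with _ | ⟨(_ | _) | _, σ⟩ <;> rfl

section
variable {V : Type} {k : ℕ} (x : V → Fin k)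

theorem map_tree_succ (t : ℕ) (F : List Bool → List (TL V)) :
    (tree (t + 1) F).map (ev x) = 2 :: ((tree t (fun a => F (false :: a))).map (ev x) ++
      3 :: ((tree t (fun a => F (true :: a))).map (ev x) ++ [4])) := by
  simp [tree, ev]

theorem bar_tree (t : ℕ) : ∀ (F : List Bool → List (TL V)) (G : List Bool → List Bool)
    (_ : ∀ a, (F a).map (ev x) = (G a).map dl) (σ : List Sy),
    mach.run (St.toBar, σ) ((tree t F).map (ev x)) = some (St.toBar, σ) := by
  induction t with
  | zero =>
    intro F G h σ
    show mach.run (St.toBar, σ) ((F []).map (ev x)) = some (St.toBar, σ)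
    rw [h]; exact bar_dl _ _
  | succ t ih =>
    intro F G h σ
    rw [map_tree_succ, run_cons _ _ _ _ _ (next_bar_open σ),
      run_app _ _ _ _ _ (ih (fun a => F (false :: a)) (fun a => G (false :: a)) (fun a => h _) _),
      run_cons _ _ _ _ (St.toBar, Sy.mark :: σ) rfl,
      run_app _ _ _ _ _ (ih (fun a => F (true :: a)) (fun a => G (true :: a)) (fun a => h _) _)]
    rfl

theorem cls_tree (t : ℕ) : ∀ (F : List Bool → List (TL V)) (G : List Bool → List Bool)
    (_ : ∀ a, (F a).map (ev x) = (G a).map dl) (σ : List Sy),
    mach.run (St.toCls, σ) ((tree t F).map (ev x)) = some (St.toCls, σ) := by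
  induction t with
  | zero =>
    intro F G h σ
    show mach.run (St.toCls, σ) ((F []).map (ev x)) = some (St.toCls, σ)
    rw [h]; exact cls_dl _ _
  | succ t ih =>
    intro F G h σ
    rw [map_tree_succ, run_cons _ _ _ _ _ (next_cls_open σ),
      run_app _ _ _ _ _ (ih (fun a => F (false :: a)) (fun a => G (false :: a)) (fun a => h _) _),
      run_cons _ _ _ _ (St.toCls, Sy.mark :: σ) rfl,
      run_app _ _ _ _ _ (ih (fun a => F (true :: a)) (fun a => G (true :: a)) (fun a => h _) _)]
    rfl

theorem next_run_bar (s : List Bool) :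
    mach.next (St.run, s.map Sy.bit) 3 = some (St.toCls, s.map Sy.bit) := by
  rcases s with _ | ⟨_ | _, s⟩ <;> rfl

theorem next_run_cls (s : List Bool) :
    mach.next (St.run, s.map Sy.bit) 4 = some (St.run, s.map Sy.bit) := by
  rcases s with _ | ⟨_ | _, s⟩ <;> rfl

theorem next_bar_bar (s : List Bool) :
    mach.next (St.toBar, s.map Sy.bit) 3 = some (St.run, s.map Sy.bit) := by
  rcases s with _ | ⟨_ | _, s⟩ <;> rfl

theorem next_cls_cls (s : List Bool) :
    mach.next (St.toCls, s.map Sy.bit) 4 = some (St.run, s.map Sy.bit) := by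
  rcases s with _ | ⟨_ | _, s⟩ <;> rfl

theorem run_tree (t : ℕ) : ∀ (F : List Bool → List (TL V)) (G : List Bool → List Bool)
    (_ : ∀ a, (F a).map (ev x) = (G a).map dl) (a s : List Bool) (_ : a.length = t),
    mach.run (St.run, (a ++ s).map Sy.bit) ((tree t F).map (ev x)) =
      some (St.run, ((G a).reverse ++ s).map Sy.bit) := by
  induction t with
  | zero =>
    intro F G h a s ha
    obtain rfl := List.length_eq_zero_iff.1 ha
    show mach.run (St.run, s.map Sy.bit) ((F []).map (ev x)) = _
    rw [h]; exact run_dl _ _
  | succ t ih =>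
    intro F G h a s ha
    obtain _ | ⟨b, a⟩ := a
    · simp at ha
    · have ha' : a.length = t := by simpa using ha
      rcases b with _ | _
      · rw [map_tree_succ, run_cons _ _ _ _ (St.run, (a ++ s).map Sy.bit) rfl,
          run_app _ _ _ _ _
            (ih (fun a => F (false :: a)) (fun a => G (false :: a)) (fun a => h _) a s ha'),
          run_cons _ _ _ _ _ (next_run_bar _),
          run_app _ _ _ _ _
            (cls_tree x t (fun a => F (true :: a)) (fun a => G (true :: a)) (fun a => h _) _),
          run_cons _ _ _ _ _ (next_cls_cls _)]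
        rfl
      · rw [map_tree_succ, run_cons _ _ _ _ (St.toBar, (a ++ s).map Sy.bit) rfl,
          run_app _ _ _ _ _
            (bar_tree x t (fun a => F (false :: a)) (fun a => G (false :: a)) (fun a => h _) _),
          run_cons _ _ _ _ _ (next_bar_bar _),
          run_app _ _ _ _ _
            (ih (fun a => F (true :: a)) (fun a => G (true :: a)) (fun a => h _) a s ha'),
          run_cons _ _ _ _ _ (next_run_cls _)]
        rfl

/-- The digits, lowest first. -/
def enc (L : ℕ) (c : ℕ) : List Bool := (List.range L).map (fun e => c.testBit e)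

theorem enc_length (L c : ℕ) : (enc L c).length = L := by simp [enc]

theorem map_digits (L : ℕ) (u : V) :
    (digits L u).map (ev x) = (enc L (x u).val).reverse.map dl := by
  simp only [digits, enc, List.map_map, ← List.map_reverse]
  rfl

theorem map_zeros (L : ℕ) :
    (List.replicate L (Sum.inl 0 : TL V)).map (ev x) = (List.replicate L false).map dl := by
  simp [ev, dl]

end

/-- A list of blocks. -/
theorem flatMap_getD {α : Type} (L : ℕ) (g : α → List Bool) (hg : ∀ s, (g s).length = L) (b : Bool)
    (e : ℕ) (he : e < L) : ∀ (l : List α) (j : ℕ) (hj : j < l.length),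
    (l.flatMap g).getD (j * L + e) b = (g (l[j])).getD e b := by
  intro l
  induction l with
  | nil => intro j hj; simp at hj
  | cons s l ih =>
    intro j hj
    rw [List.flatMap_cons]
    rcases j with _ | j
    · rw [List.getD_append _ _ _ _ (by rw [hg]; omega)]
      simp
    · rw [List.getD_append_right _ _ _ _ (by rw [hg]; nlinarith [Nat.zero_le (j * L)]), hg]
      have : (j + 1) * L + e - L = j * L + e := by
        rw [Nat.add_mul, Nat.one_mul]; omega
      rw [this, ih j (by simpa using hj)]
      simp

theorem flatMap_len {α : Type} (L : ℕ) (g : α → List Bool) (hg : ∀ s, (g s).length = L)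
    (l : List α) : (l.flatMap g).length = l.length * L := by
  induction l with
  | nil => simp
  | cons s l ih => rw [List.flatMap_cons, List.length_append, hg, ih, List.length_cons]; ring

/-- The address of the children with values `c`. -/
def addr (d L : ℕ) (c : Fin d → ℕ) : List Bool :=
  (List.finRange d).reverse.flatMap (fun s => enc L (c s))

theorem addr_length (d L : ℕ) (c : Fin d → ℕ) : (addr d L c).length = d * L := by
  unfold addr
  rw [flatMap_len L _ (fun s => enc_length L _)]
  simp

theorem arg_addr (d L : ℕ) (c : Fin d → ℕ) (hc : ∀ s, c s < 2 ^ L) (s : Fin d) :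
    arg d L (addr d L c) s = c s := by
  unfold arg addr
  have hs : d - 1 - s.val < ((List.finRange d).reverse).length := by
    have := s.2
    simp; omega
  have key : ∀ e : Fin L, ((List.finRange d).reverse.flatMap (fun s => enc L (c s))).getD
      ((d - 1 - s.val) * L + e.val) false = (c s).testBit e.val := by
    intro e
    rw [flatMap_getD L (fun s => enc L (c s)) (fun s => enc_length L _) false e.val e.2 _ _ hs]
    have h1 : ((List.finRange d).reverse)[d - 1 - s.val] = s := by
      rw [List.getElem_reverse]
      apply Fin.ext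
      simp
      have := s.2
      omega
    rw [h1]
    simp [enc, List.getD_eq_getElem?_getD]
  simp only [key]
  rw [Nat.ofBits_testBit, Nat.mod_eq_of_lt (hc s)]

theorem run_flatMap {α : Type} (f : α → List (Fin 6)) (g : α → List Bool)
    (hfg : ∀ s, ∀ r : List Bool, mach.run (St.run, r.map Sy.bit) (f s) =
      some (St.run, (g s ++ r).map Sy.bit)) : ∀ (l : List α) (r : List Bool),
    mach.run (St.run, r.map Sy.bit) (l.flatMap f) =
      some (St.run, (l.reverse.flatMap g ++ r).map Sy.bit) := by
  intro l
  induction l with
  | nil => intro r; rfl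
  | cons s l ih =>
    intro r
    rw [List.flatMap_cons, run_app _ _ _ _ _ (hfg s r), ih]
    simp

theorem map_flatMap' {α β γ : Type} (f : α → List β) (g : β → γ) (l : List α) :
    (l.flatMap f).map g = l.flatMap (fun s => (f s).map g) := by
  rw [List.map_flatMap]

theorem run_tmpl {d k n : ℕ} (L : ℕ) (hk : k ≤ 2 ^ L) (x : Input d k n) :
    ∀ (m : ℕ) (v : List (Fin d)) (h : v.length ≤ n) (_ : n - v.length = m) (s : List Bool),
      mach.run (St.run, s.map Sy.bit) ((tmpl L v h).map (ev x)) =
        some (St.run, (enc L (value x v h).val ++ s).map Sy.bit) := by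
  intro m
  induction m with
  | zero =>
    intro v h hm s
    have h' : ¬ v.length < n := by omega
    rw [tmpl, value]
    rw [dif_neg h', dif_neg h', map_digits, run_dl]
    simp
  | succ m ih =>
    intro v h hm s
    have h' : v.length < n := by omega
    rw [tmpl, value]
    rw [dif_pos h', dif_pos h', List.map_append, map_flatMap']
    have hch := run_flatMap
      (fun j : Fin d => (tmpl (d := d) (k := k) (n := n) L (j :: v) (by simpa using h')).map (ev x))
      (fun j : Fin d => enc L (value x (j :: v) (by simpa using h')).val)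
      (fun j r => ih (j :: v) (by simpa using h') (by simp; omega) r)
      (List.finRange d) s
    rw [run_app _ _ _ _ _ hch]
    -- the tree
    let c : Fin d → ℕ := fun j => (value x (j :: v) (by simpa using h')).val
    have hc : ∀ j, c j < 2 ^ L := fun j => lt_of_lt_of_le (value x (j :: v) _).2 hk
    classical
    let G : List Bool → List Bool := fun a =>
      if h : ∀ s, arg d L a s < k then
        (enc L (x (Sum.inl (⟨v, h'⟩, fun s => ⟨arg d L a s, h s⟩))).val).reverse
      else List.replicate L false
    have hG : ∀ a, (entry (k := k) L ⟨v, h'⟩ a).map (ev x) = (G a).map dl := by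
      intro a
      unfold entry
      by_cases h1 : ∀ s, arg d L a s < k
      · simp only [G, dif_pos h1]
        exact map_digits x L _
      · simp only [G, dif_neg h1]
        exact map_zeros x L
    have h2 := run_tree x (d * L) (entry (k := k) L ⟨v, h'⟩) G hG (addr d L c) s (addr_length d L c)
    have h3 : (List.finRange d).reverse.flatMap
        (fun j : Fin d => enc L (value x (j :: v) (by simpa using h')).val) = addr d L c := rfl
    rw [h3, h2]
    have h4 : ∀ j, arg d L (addr d L c) j < k := by
      intro j
      rw [arg_addr d L c hc j]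
      exact (value x (j :: v) _).2
    have h5 : (fun j => (⟨arg d L (addr d L c) j, h4 j⟩ : Fin k)) =
        fun j => value x (j :: v) (by simpa using h') := by
      funext j
      apply Fin.ext
      exact arg_addr d L c hc j
    have h6 : (G (addr d L c)).reverse = enc L (x (Sum.inl (⟨v, h'⟩,
        fun j => value x (j :: v) (by simpa using h')))).val := by
      simp only [G]
      rw [dif_pos h4, List.reverse_reverse, h5]
    rw [h6]

theorem main : S_PDA := by
  intro d k n L hL hk x
  have h1 : List.ofFn (word L x) = (tmpl L [] (Nat.zero_le n)).map (ev x) ++ [5] := by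
    have : List.ofFn (word L x) = (wd d k n L).map (ev x) := by
      conv_rhs => rw [← List.ofFn_get (wd d k n L)]
      rw [List.map_ofFn]
      rfl
    rw [this, wd, List.map_append]
    rfl
  have h2 := run_tmpl L hk x (n - 0) [] (Nat.zero_le n) rfl []
  have h3 : mach.run (mach.start, []) (List.ofFn (word L x)) =
      mach.run (St.run, (enc L (rootValue x).val).map Sy.bit) [5] := by
    rw [h1]
    have h2' : mach.run (mach.start, []) ((tmpl L [] (Nat.zero_le n)).map (ev x)) =
        some (St.run, (enc L (rootValue x).val).map Sy.bit) := by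
      rw [List.append_nil] at h2
      exact h2
    rw [run_app _ _ _ _ _ h2']
  have h4 : ∃ r : List Bool, enc L (rootValue x).val = (rootValue x).val.testBit 0 :: r := by
    obtain ⟨L, rfl⟩ : ∃ L', L = L' + 1 := ⟨L - 1, by omega⟩
    refine ⟨(List.range L).map (fun e => (rootValue x).val.testBit (e + 1)), ?_⟩
    unfold enc
    rw [List.range_succ_eq_map, List.map_cons, List.map_map]
    rfl
  obtain ⟨r, hr⟩ := h4
  rw [hr] at h3
  show (∃ c, mach.run (mach.start, []) (List.ofFn (word L x)) = some c ∧ c.1 ∈ mach.final) ↔ _
  rw [h3, Nat.testBit_zero]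
  unfold bit
  rcases Nat.mod_two_eq_zero_or_one (rootValue x).val with h5 | h5
  · rw [h5]
    simp only [decide_true, iff_true]
    refine ⟨(St.yes, r.map Sy.bit), rfl, rfl⟩
  · rw [h5]
    have : ¬ ∃ c : St × List Sy, mach.run (St.run, List.map Sy.bit (decide (1 = 1) :: r)) [5] =
        some c ∧ c.1 ∈ mach.final := by
      rintro ⟨c, hc, hc'⟩
      have h6 : mach.run (St.run, List.map Sy.bit (decide (1 = 1) :: r)) [5] =
        some (St.no, r.map Sy.bit) := rfl
      rw [h6] at hc
      obtain rfl := Option.some.inj hc
      exact absurd hc' (by rintro ⟨⟩)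
    exact iff_of_false this (by decide)

end Pool.Agent.W216.CFPDA
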