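import Pool.Agent.W216.CFPDA

/-!
# The digits in the word, and the length of the word
-/

set_option autoImplicit false

namespace Pool.Agent.W216.CFMEM

open Pool.Agent.W997.TS (DBP Var Input value rootValue bit)
open Pool.Agent.H561R2.CF (RDPDA)
open Pool.Agent.W997.CF
open Pool.Agent.W216.CFPDA (addr addr_length arg_addr)

theorem mem_digits {V : Type} (L : ℕ) (u : V) (e : ℕ) (he : e < L) :
    (Sum.inr (u, e) : TL V) ∈ digits L u := by
  unfold digits
  rw [List.mem_map]
  exact ⟨e, by simpa using he, rfl⟩

theorem mem_tree {V : Type} (z : TL V) (t : ℕ) : ∀ (F : List Bool → List (TL V)) (a : List Bool)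
    (_ : a.length = t) (_ : z ∈ F a), z ∈ tree t F := by
  induction t with
  | zero =>
    intro F a ha hz
    obtain rfl := List.length_eq_zero_iff.1 ha
    exact hz
  | succ t ih =>
    intro F a ha hz
    obtain _ | ⟨b, a⟩ := a
    · simp at ha
    · have ha' : a.length = t := by simpa using ha
      rcases b with _ | _
      · have := ih (fun a => F (false :: a)) a ha' hz
        simp only [tree, List.mem_cons, List.mem_append]
        exact Or.inr (Or.inl this)
      · have := ih (fun a => F (true :: a)) a ha' hz
        simp only [tree, List.mem_cons, List.mem_append]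
        exact Or.inr (Or.inr (Or.inr (Or.inl this)))

theorem mem_root {d k n : ℕ} (L : ℕ) (z : TL (Var d k n)) : ∀ (v : List (Fin d))
    (h : v.length ≤ n) (_ : z ∈ tmpl (k := k) L v h), z ∈ tmpl (k := k) L [] (Nat.zero_le n) := by
  intro v
  induction v with
  | nil => intro h hz; exact hz
  | cons s w ih =>
    intro h hz
    have h' : w.length < n := by simpa using h
    refine ih h'.le ?_
    rw [tmpl, dif_pos h', List.mem_append]
    left
    rw [List.mem_flatMap]
    exact ⟨s, List.mem_finRange s, hz⟩

theorem main : S_MEM := by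
  intro d k n L hL hk u e he
  unfold wd
  rw [List.mem_append]
  left
  rcases u with ⟨⟨v, hv⟩, b⟩ | ⟨v, hv⟩
  · refine mem_root L _ v hv.le ?_
    rw [tmpl, dif_pos hv, List.mem_append]
    right
    have hc : ∀ s, (b s).val < 2 ^ L := fun s => lt_of_lt_of_le (b s).2 hk
    refine mem_tree _ _ _ (addr d L (fun s => (b s).val)) (addr_length _ _ _) ?_
    have h4 : ∀ j, arg d L (addr d L (fun s => (b s).val)) j < k := by
      intro j
      rw [arg_addr d L _ hc j]
      exact (b j).2
    have h5 : (fun j => (⟨arg d L (addr d L (fun s => (b s).val)) j, h4 j⟩ : Fin k)) = b := by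
      funext j
      apply Fin.ext
      exact arg_addr d L _ hc j
    unfold entry
    rw [dif_pos h4, h5]
    exact mem_digits L _ e he
  · refine mem_root L _ v hv.le ?_
    rw [tmpl, dif_neg (by omega)]
    exact mem_digits L _ e he

/-! ### The length -/

theorem length_tree {V : Type} (L t : ℕ) : ∀ (F : List Bool → List (TL V))
    (_ : ∀ a, (F a).length = L), (tree t F).length + 3 = 2 ^ t * (L + 3) := by
  induction t with
  | zero =>
    intro F h
    show (F []).length + 3 = _
    rw [h]; simp
  | succ t ih =>
    intro F h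
    have h1 := ih (fun a => F (false :: a)) (fun a => h _)
    have h2 := ih (fun a => F (true :: a)) (fun a => h _)
    simp only [tree, List.length_cons, List.length_append, List.length_nil]
    rw [pow_succ]
    have : 2 ^ t * 2 * (L + 3) = 2 ^ t * (L + 3) + 2 ^ t * (L + 3) := by ring
    omega

theorem length_digits {V : Type} (L : ℕ) (u : V) : (digits L u).length = L := by
  simp [digits]

theorem length_entry {d k n : ℕ} (L : ℕ) (v : {v : List (Fin d) // v.length < n})
    (a : List Bool) : (entry (k := k) L v a).length = L := by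
  unfold entry
  split_ifs
  · exact length_digits _ _
  · simp

theorem length_flatMap_le {α β : Type} (f : α → List β) (c : ℕ) (h : ∀ s, (f s).length ≤ c)
    (l : List α) : (l.flatMap f).length ≤ l.length * c := by
  induction l with
  | nil => simp
  | cons s l ih =>
    rw [List.flatMap_cons, List.length_append, List.length_cons, Nat.add_mul, Nat.one_mul]
    have := h s
    omega

theorem length_tmpl {d k n : ℕ} (L : ℕ) : ∀ (m : ℕ) (v : List (Fin d)) (h : v.length ≤ n)
    (_ : n - v.length = m), (tmpl (k := k) L v h).length ≤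
      d ^ m * L + (∑ j ∈ Finset.range m, d ^ j) * (2 ^ (d * L) * (L + 3)) := by
  intro m
  induction m with
  | zero =>
    intro v h hm
    rw [tmpl, dif_neg (by omega), length_digits]
    simp
  | succ m ih =>
    intro v h hm
    have h' : v.length < n := by omega
    rw [tmpl, dif_pos h', List.length_append]
    have h1 := length_flatMap_le
      (fun s => tmpl (d := d) (k := k) (n := n) L (s :: v) (by simpa using h')) _
      (fun s => ih (s :: v) (by simpa using h') (by simp; omega)) (List.finRange d)
    rw [List.length_finRange] at h1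
    have h2 := length_tree L (d * L) (entry (k := k) L ⟨v, h'⟩) (length_entry L _)
    rw [geom_sum_succ]
    set T := 2 ^ (d * L) * (L + 3) with hT
    set S := ∑ j ∈ Finset.range m, d ^ j with hS
    calc _ ≤ d * (d ^ m * L + S * T) + T := Nat.add_le_add h1 (by omega)
      _ = d ^ (m + 1) * L + (d * S + 1) * T := by ring

theorem card_leaf (d n : ℕ) : Fintype.card {v : List (Fin d) // v.length = n} = d ^ n := by
  have h := card_vector (α := Fin d) n
  rw [Fintype.card_fin] at h
  rw [← h]
  exact Fintype.card_congr (Equiv.refl _)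

theorem card_inner (d n : ℕ) : Fintype.card {v : List (Fin d) // v.length < n} =
    ∑ j ∈ Finset.range n, d ^ j := by
  have e : {v : List (Fin d) // v.length < n} ≃
      Σ j : Fin n, {v : List (Fin d) // v.length = j.val} :=
    { toFun := fun v => ⟨⟨v.1.length, v.2⟩, ⟨v.1, rfl⟩⟩
      invFun := fun p => ⟨p.2.1, by rw [p.2.2]; exact p.1.2⟩
      left_inv := fun v => rfl
      right_inv := by
        rintro ⟨⟨j, hj⟩, ⟨v, hv⟩⟩
        cases hv
        rfl }
  rw [Fintype.card_congr e, Fintype.card_sigma]
  simp only [card_leaf]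
  rw [Finset.sum_range]

theorem card_var (d k n : ℕ) : Fintype.card (Var d k n) =
    (∑ j ∈ Finset.range n, d ^ j) * k ^ d + d ^ n := by
  rw [Fintype.card_sum, Fintype.card_prod, card_leaf, Fintype.card_fun, Fintype.card_fin,
    Fintype.card_fin, card_inner]

theorem len : S_LEN := by
  intro d k n L hd hL hk
  unfold wd
  rw [List.length_append, List.length_singleton, card_var]
  have h1 := length_tmpl (k := k) (n := n) L (n - 0) ([] : List (Fin d)) (Nat.zero_le n) rfl
  rw [Nat.sub_zero] at h1
  have h2 : 2 ^ (d * L) ≤ 2 ^ d * k ^ d := by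
    rw [← mul_pow, mul_comm d L, pow_mul]
    exact Nat.pow_le_pow_left hk d
  set S := ∑ j ∈ Finset.range n, d ^ j with hS
  have h3 : S * (2 ^ (d * L) * (L + 3)) ≤ S * (2 ^ d * k ^ d * (L + 3)) :=
    Nat.mul_le_mul_left _ (Nat.mul_le_mul_right _ h2)
  have h4 : d ^ n * L ≤ d ^ n * (2 ^ d * (L + 3)) := by
    refine Nat.mul_le_mul_left _ ?_
    calc L ≤ 1 * (L + 3) := by omega
      _ ≤ 2 ^ d * (L + 3) := Nat.mul_le_mul_right _ (Nat.one_le_two_pow)
  have h5 : (S * k ^ d + d ^ n) * (2 ^ d * (L + 3)) =
      d ^ n * (2 ^ d * (L + 3)) + S * (2 ^ d * k ^ d * (L + 3)) := by ring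
  omega

end Pool.Agent.W216.CFMEM
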